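import Mathlib
import Pool.Agent.Y336.RW.Stm

/-!
Project RW (MP_d0a72d_lc): tripling modulo `q`.
-/

set_option autoImplicit false

namespace Pool.Agent.Y469.RW

open Pool.Agent.Y336.RW

section norms

variable {q : ℕ} [hq : Fact q.Prime]

theorem le_add {a b : ℚ} (ha : padicNorm q a ≤ 1) (hb : padicNorm q b ≤ 1) :
    padicNorm q (a + b) ≤ 1 :=
  le_trans padicNorm.nonarchimedean (max_le ha hb)

theorem le_sub {a b : ℚ} (ha : padicNorm q a ≤ 1) (hb : padicNorm q b ≤ 1) :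
    padicNorm q (a - b) ≤ 1 := by
  rw [sub_eq_add_neg]
  exact le_add ha (by rwa [padicNorm.neg])

theorem le_mul {a b : ℚ} (ha : padicNorm q a ≤ 1) (hb : padicNorm q b ≤ 1) :
    padicNorm q (a * b) ≤ 1 := by
  rw [padicNorm.mul]
  exact mul_le_one₀ ha (padicNorm.nonneg _) hb

theorem le_pow {a : ℚ} (ha : padicNorm q a ≤ 1) (n : ℕ) : padicNorm q (a ^ n) ≤ 1 := by
  induction n with
  | zero => simp
  | succ n ih => rw [pow_succ]; exact le_mul ih ha

theorem le_int (n : ℤ) : padicNorm q (n : ℚ) ≤ 1 := padicNorm.of_int n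

theorem lt_mul {a b : ℚ} (ha : padicNorm q a < 1) (hb : padicNorm q b ≤ 1) :
    padicNorm q (a * b) < 1 := by
  rw [padicNorm.mul]
  have h0 : 0 ≤ padicNorm q a := padicNorm.nonneg _
  have h1 : 0 ≤ padicNorm q b := padicNorm.nonneg _
  nlinarith

theorem lt_add {a b : ℚ} (ha : padicNorm q a < 1) (hb : padicNorm q b < 1) :
    padicNorm q (a + b) < 1 :=
  lt_of_le_of_lt padicNorm.nonarchimedean (max_lt ha hb)

theorem lt_sub {a b : ℚ} (ha : padicNorm q a < 1) (hb : padicNorm q b < 1) :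
    padicNorm q (a - b) < 1 := by
  rw [sub_eq_add_neg]
  exact lt_add ha (by rwa [padicNorm.neg])

theorem one_int (h7 : 7 ≤ q) (a b c : ℕ) (n : ℤ) (hn : n.natAbs = 2 ^ a * 3 ^ b * 5 ^ c) :
    padicNorm q (n : ℚ) = 1 := by
  rw [padicNorm.int_eq_one_iff]
  intro hd
  have h1 : q ∣ n.natAbs := Int.natCast_dvd.mp hd
  rw [hn] at h1
  rcases (Nat.Prime.dvd_mul hq.out).mp h1 with h | h
  · rcases (Nat.Prime.dvd_mul hq.out).mp h with h | h
    · have := Nat.le_of_dvd (by norm_num) (hq.out.dvd_of_dvd_pow h)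
      omega
    · have := Nat.le_of_dvd (by norm_num) (hq.out.dvd_of_dvd_pow h)
      omega
  · have := Nat.le_of_dvd (by norm_num) (hq.out.dvd_of_dvd_pow h)
    omega

/-- a linear factor whose value is a unit does not divide -/
theorem one_of {x h c u : ℚ} (hu : padicNorm q u ≤ 1) (hx : padicNorm q x ≤ 1)
    (hh : padicNorm q h < 1) (hc : padicNorm q c = 1) (e : h = x * u + c) :
    padicNorm q x = 1 := by
  by_contra hne
  have hlt : padicNorm q x < 1 := lt_of_le_of_ne hx hne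
  have h2 : padicNorm q (h - x * u) < 1 := lt_sub hh (lt_mul hlt hu)
  have h3 : h - x * u = c := by rw [e]; ring
  rw [h3, hc] at h2
  exact lt_irrefl _ h2

end norms

theorem trip (g : Grp) : Trip := by
  intro q hq h7 R hR hx hh
  have : Fact q.Prime := ⟨hq⟩
  set x : ℚ := xc R with hxdef
  set y : ℚ := yc R with hydef
  set h : ℚ := x ^ 4 - 20 * x ^ 3 - 150 * x ^ 2 - 500 * x + 625 with hhdef
  have hI : ∀ n : ℤ, padicNorm q (n : ℚ) ≤ 1 := fun n => le_int n
  have c5 : padicNorm q (5 : ℚ) ≤ 1 := by simpa using hI 5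
  -- the three factors
  have u0 : padicNorm q x = 1 := by
    refine one_of (u := x ^ 3 - (20 : ℤ) * x ^ 2 - (150 : ℤ) * x - (500 : ℤ)) (c := ((625 : ℤ) : ℚ))
      (h := h) ?_ hx hh (one_int h7 0 0 4 625 (by norm_num)) ?_
    · exact le_sub (le_sub (le_sub (le_pow hx 3) (le_mul (hI 20) (le_pow hx 2)))
        (le_mul (hI 150) hx)) (hI 500)
    · rw [hhdef]; push_cast; ring
  have u5 : padicNorm q (x - 5) = 1 := by
    refine one_of (u := x ^ 3 - (15 : ℤ) * x ^ 2 - (225 : ℤ) * x - (1625 : ℤ))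
      (c := ((-7500 : ℤ) : ℚ))
      (h := h) ?_ (le_sub hx c5) hh (one_int h7 2 1 4 (-7500) (by norm_num)) ?_
    · exact le_sub (le_sub (le_sub (le_pow hx 3) (le_mul (hI 15) (le_pow hx 2)))
        (le_mul (hI 225) hx)) (hI 1625)
    · rw [hhdef]; push_cast; ring
  have u5' : padicNorm q (x + 5) = 1 := by
    refine one_of (u := x ^ 3 - (25 : ℤ) * x ^ 2 - (25 : ℤ) * x - (375 : ℤ))
      (c := ((2500 : ℤ) : ℚ))
      (h := h) ?_ (le_add hx c5) hh (one_int h7 2 0 4 2500 (by norm_num)) ?_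
    · exact le_sub (le_sub (le_sub (le_pow hx 3) (le_mul (hI 25) (le_pow hx 2)))
        (le_mul (hI 25) hx)) (hI 375)
    · rw [hhdef]; push_cast; ring
  have n4 : padicNorm q (4 : ℚ) = 1 := by
    have := one_int (q := q) h7 2 0 0 4 (by norm_num)
    simpa using this
  -- psi
  have hpsi : padicNorm q ((3 : ℤ) * x ^ 4 - (150 : ℤ) * x ^ 2 - (625 : ℤ)) = 1 := by
    refine one_of (u := (6 : ℤ) * x ^ 3 - (105 : ℤ) * x ^ 2 - (1200 : ℤ) * x - (5375 : ℤ))
      (c := ((-5000000 : ℤ) : ℚ))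
      (h := h * ((18 : ℤ) * x ^ 3 + (45 : ℤ) * x ^ 2 - (900 : ℤ) * x - (2625 : ℤ)))
      ?_ ?_ ?_ (one_int h7 6 0 7 (-5000000) (by norm_num)) ?_
    · exact le_sub (le_sub (le_sub (le_mul (hI 6) (le_pow hx 3)) (le_mul (hI 105) (le_pow hx 2)))
        (le_mul (hI 1200) hx)) (hI 5375)
    · exact le_sub (le_sub (le_mul (hI 3) (le_pow hx 4)) (le_mul (hI 150) (le_pow hx 2))) (hI 625)
    · exact lt_mul hh (le_sub (le_sub (le_add (le_mul (hI 18) (le_pow hx 3))
        (le_mul (hI 45) (le_pow hx 2))) (le_mul (hI 900) hx)) (hI 2625))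
    · rw [hhdef]; push_cast; ring
  push_cast at hpsi
  -- y
  have ey : y ^ 2 = x ^ 3 - 25 * x := g.eqn R hR
  have ey' : y ^ 2 = x * (x - 5) * (x + 5) := by rw [ey]; ring
  have ny : padicNorm q (y ^ 2) = 1 := by
    rw [ey', padicNorm.mul, padicNorm.mul, u0, u5, u5']; norm_num
  have hy : y ≠ 0 := by
    intro h0
    rw [h0] at ny
    simp at ny
  obtain ⟨hRR, e2⟩ := g.dbl R hR hy
  set x2 : ℚ := xc (R + R) with hx2def
  have e2' : x2 * (4 * y ^ 2) = (x ^ 2 + 25) ^ 2 := e2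
  have e3 : (x2 - x) * (4 * y ^ 2) = -(3 * x ^ 4 - 150 * x ^ 2 - 625) := by
    have : (x2 - x) * (4 * y ^ 2) = x2 * (4 * y ^ 2) - 4 * x * y ^ 2 := by ring
    rw [this, e2', ey]; ring
  have n21 : padicNorm q (x2 - x) = 1 := by
    have h1 : padicNorm q ((x2 - x) * (4 * y ^ 2)) = 1 := by rw [e3, padicNorm.neg, hpsi]
    rwa [padicNorm.mul, padicNorm.mul, n4, ny, mul_one, mul_one] at h1
  have hne : x2 ≠ x := by
    intro h0
    rw [h0, sub_self] at n21
    simp at n21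
  obtain ⟨h3, -, s1, s2⟩ := g.add (R + R) R hRR hR hne
  rw [add_sub_cancel_right] at s1 s2
  set x3 : ℚ := xc (R + R + R) with hx3def
  have s1' : (x3 + x) * (x2 - x) ^ 2 = 2 * (x2 + x) * (x2 * x - 25) := s1
  have s2' : x3 * x * (x2 - x) ^ 2 = (x2 * x + 25) ^ 2 := s2
  have e4 : (x3 - 5) * (x - 5) * (x2 - x) ^ 2 = ((x2 - 5) * (x - 5) - 50) ^ 2 := by
    linear_combination s2' - 5 * s1'
  have e5 : (4 * (x * (x + 5))) * ((x2 - 5) * (x - 5) - 50) = h := by
    have e6 : (x2 - 5) * (4 * (x * (x - 5) * (x + 5))) = (x ^ 2 - 10 * x - 25) ^ 2 := by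
      have : (x2 - 5) * (4 * (x * (x - 5) * (x + 5)))
          = x2 * (4 * (x * (x - 5) * (x + 5))) - 20 * (x * (x - 5) * (x + 5)) := by ring
      rw [this, ← ey', e2', ey]; ring
    rw [hhdef]
    linear_combination e6
  have n5 : padicNorm q ((x2 - 5) * (x - 5) - 50) < 1 := by
    have h1 : padicNorm q ((4 * (x * (x + 5))) * ((x2 - 5) * (x - 5) - 50)) < 1 := by
      rw [e5]; exact hh
    rwa [padicNorm.mul, padicNorm.mul, padicNorm.mul, n4, u0, u5', mul_one, one_mul, one_mul]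
      at h1
  have n6 : padicNorm q (x3 - 5) < 1 := by
    have h1 : padicNorm q ((x3 - 5) * (x - 5) * (x2 - x) ^ 2) < 1 := by
      rw [e4, pow_two]
      exact lt_mul n5 n5.le
    rwa [pow_two, padicNorm.mul, padicNorm.mul, padicNorm.mul, u5, n21, mul_one, mul_one,
      mul_one] at h1
  refine ⟨⟨h3, n6⟩, fun hk => ?_⟩
  have h8 : padicNorm q (x - 5) < 1 := hk.2
  rw [u5] at h8
  exact lt_irrefl _ h8

end Pool.Agent.Y469.RW
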